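import Pool.Agent.Lib.Pa39268.Final

/-!
# The diagonal identity between the Burkholder and the BMO Bellman functions

The definitions used in the statement (`V`, `B` and what they rest on) are in
`Pool/Agent/Lib/Pa39268/Defs.lean`.
-/

namespace Pool.Agent.Results.MP_a39268_an.DiagonalIdentity

open Pool.Agent.Lib.Pa39268

/-- For every `f : ℝ → ℝ` bounded from below (no continuity, no local boundedness) and every `x`,
the Burkholder function `V` at `(x, 0)` equals the BMO Bellman function `B` at `(x, x^2 + 1)`. -/
theorem result (f : ℝ → ℝ) (hb : ∃ C : ℝ, ∀ s, C ≤ f s) (x : ℝ) :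
    V f (x, 0) = B f (x, x ^ 2 + 1) :=
  diagonal_identity f hb x

end Pool.Agent.Results.MP_a39268_an.DiagonalIdentity
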